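import Pool.Agent.Helper8.ST.Bnd
import Pool.Agent.Helper33.ST.Clt

/-!
# The central limit theorem for the hitting times

`clt`: for every set `F` of integers which is bounded above, the density of the `n` whose orbit meets `F` within the first
`log n / γ + u σ √(log n)` steps is `D Φ(u)`, `D` the density of the integers whose orbit meets `F`.
-/

set_option autoImplicit false

namespace Pool.Agent.Helper8.ST

open Pool.Agent.Helper68.Moeller Pool.Agent.Helper52.Tao Pool.Agent.Helper8.ND Pool.Agent.Helper28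
  Pool.Agent.Helper91 Pool.Agent.Helper8.PW ProbabilityTheory Filter Topology

variable {d m : ℕ} {r : ℤ → ℤ}

/-- `σ = γ ^ (-3/2) (log m) √((1 - 1 / d) / d)`. -/
noncomputable def sd (d m : ℕ) : ℝ :=
  Real.log m * Real.sqrt ((1 - 1 / (d : ℝ)) * (1 / (d : ℝ))) / (PL.gam d m * Real.sqrt (PL.gam d m))

theorem ratio {γ v lm w u : ℝ} (a K : ℝ) (hγ : 0 < γ) (hv : 0 < v) (hlm : 0 < lm)
    (hu : γ * w = u * (lm * Real.sqrt (v * (1 / γ)))) {δ : ℝ} (hδ : 0 < δ) :
    ∃ L₀ : ℝ, 0 < L₀ ∧ ∀ L : ℝ, L₀ ≤ L → ∀ s : ℝ, |s - (L / γ + w * Real.sqrt L)| ≤ K →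
      |(a + γ * s - L) / (lm * Real.sqrt (v * s)) - u| ≤ δ := by
  have hs0 : 0 < lm * Real.sqrt (v * (1 / γ)) := mul_pos hlm (Real.sqrt_pos.2 (by positivity))
  have hcont : ContinuousAt (fun p : ℝ × ℝ => (γ * w + p.1) / (lm * Real.sqrt (v * (1 / γ + p.2)))) (0, 0) := by
    refine ContinuousAt.div (by fun_prop) (by fun_prop) ?_
    simpa using hs0.ne'
  have hval : (γ * w + 0) / (lm * Real.sqrt (v * (1 / γ + 0))) = u := by
    rw [add_zero, add_zero, hu]
    exact mul_div_cancel_right₀ _ hs0.ne'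
  obtain ⟨η, hη, h1⟩ := Metric.continuousAt_iff.1 hcont δ hδ
  have hev : ∀ᶠ L : ℝ in atTop, 1 ≤ L ∧ (|a| + γ * |K|) / Real.sqrt L < η ∧ |w| / Real.sqrt L + |K| / L < η := by
    refine (eventually_ge_atTop 1).and (Filter.Eventually.and ?_ ?_)
    · exact (tendsto_const_nhds.div_atTop Real.tendsto_sqrt_atTop).eventually (gt_mem_nhds hη)
    · have h2 : Tendsto (fun L : ℝ => |w| / Real.sqrt L + |K| / L) atTop (𝓝 (0 + 0)) :=
        (tendsto_const_nhds.div_atTop Real.tendsto_sqrt_atTop).add (tendsto_const_nhds.div_atTop tendsto_id)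
      rw [add_zero] at h2
      exact h2.eventually (gt_mem_nhds hη)
  obtain ⟨L₀, hL₀⟩ := eventually_atTop.1 hev
  refine ⟨max L₀ 1, by positivity, fun L hL s hs => ?_⟩
  obtain ⟨h2, h3, h4⟩ := hL₀ L ((le_max_left _ _).trans hL)
  have hL0 : 0 < L := by linarith
  have hq : 0 < Real.sqrt L := Real.sqrt_pos.2 hL0
  have hqq : Real.sqrt L * Real.sqrt L = L := Real.mul_self_sqrt hL0.le
  obtain ⟨k, hk⟩ : ∃ k, k = s - (L / γ + w * Real.sqrt L) := ⟨_, rfl⟩
  rw [← hk] at hs
  have hkK : |k| ≤ |K| := hs.trans (le_abs_self K)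
  have hsk : s = L / γ + w * Real.sqrt L + k := by rw [hk]; ring
  have e1 : (a + γ * s - L) / (lm * Real.sqrt (v * s)) =
      (γ * w + (a + γ * k) / Real.sqrt L) / (lm * Real.sqrt (v * (1 / γ + (w / Real.sqrt L + k / L)))) := by
    have e2 : v * s = L * (v * (1 / γ + (w / Real.sqrt L + k / L))) := by
      have e3 : L * (w / Real.sqrt L) = w * Real.sqrt L := by
        nth_rewrite 1 [← hqq]
        field_simp
      have e4 : L * (k / L) = k := by field_simp
      calc v * s = v * (L / γ + w * Real.sqrt L + k) := by rw [hsk]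
        _ = v * (L / γ + L * (w / Real.sqrt L) + L * (k / L)) := by rw [e3, e4]
        _ = _ := by ring
    have e5 : a + γ * s - L = Real.sqrt L * (γ * w + (a + γ * k) / Real.sqrt L) := by
      have e6 : Real.sqrt L * ((a + γ * k) / Real.sqrt L) = a + γ * k := by field_simp
      rw [mul_add, e6, hsk]
      field_simp
      ring
    rw [e5, e2, Real.sqrt_mul hL0.le, show lm * (Real.sqrt L * Real.sqrt (v * (1 / γ + (w / Real.sqrt L + k / L)))) =
      Real.sqrt L * (lm * Real.sqrt (v * (1 / γ + (w / Real.sqrt L + k / L)))) by ring]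
    exact mul_div_mul_left _ _ hq.ne'
  have h5 : dist (((a + γ * k) / Real.sqrt L, w / Real.sqrt L + k / L) : ℝ × ℝ) (0, 0) < η := by
    rw [Prod.dist_eq, max_lt_iff]
    constructor
    · rw [Real.dist_eq, sub_zero, abs_div, abs_of_pos hq]
      refine lt_of_le_of_lt (div_le_div_of_nonneg_right ?_ hq.le) h3
      calc |a + γ * k| ≤ |a| + |γ * k| := abs_add_le _ _
        _ = |a| + γ * |k| := by rw [abs_mul, abs_of_pos hγ]
        _ ≤ |a| + γ * |K| := by
          have := mul_le_mul_of_nonneg_left hkK hγ.le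
          linarith
    · rw [Real.dist_eq, sub_zero]
      refine lt_of_le_of_lt ((abs_add_le _ _).trans ?_) h4
      rw [abs_div, abs_div, abs_of_pos hq, abs_of_pos hL0]
      have := div_le_div_of_nonneg_right hkK hL0.le
      linarith
  have h6 := h1 h5
  rw [Real.dist_eq] at h6
  have h7 : |(γ * w + (a + γ * k) / Real.sqrt L) / (lm * Real.sqrt (v * (1 / γ + (w / Real.sqrt L + k / L)))) -
      (γ * w + 0) / (lm * Real.sqrt (v * (1 / γ + 0)))| < δ := h6
  rw [hval] at h7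
  rw [e1]
  exact h7.le

theorem Wf_lim (hd : 2 ≤ d) (hdm : d < m) (hγ : 0 < PL.gam d m) (a K u : ℝ) {ε : ℝ} (hε : 0 < ε) :
    ∃ L₀ : ℝ, 0 < L₀ ∧ ∀ x : ℝ, L₀ ≤ Real.log x → ∀ s : ℕ,
      |(s : ℝ) - (Real.log x / PL.gam d m + u * sd d m * Real.sqrt (Real.log x))| ≤ K →
      |Wf d m a x s - cdf (gaussianReal 0 1) u| ≤ ε := by
  have hd1 : (1 : ℝ) < d := by exact_mod_cast (by omega : 1 < d)
  have hd0 : (0 : ℝ) < d := by linarith
  have hm1 : (1 : ℝ) < m := by exact_mod_cast (by omega : 1 < m)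
  have hlm : 0 < Real.log m := Real.log_pos hm1
  have hv : 0 < (1 - 1 / (d : ℝ)) * (1 / (d : ℝ)) := by
    have : 1 / (d : ℝ) < 1 := by rw [div_lt_one hd0]; exact hd1
    have h2 : 0 < 1 / (d : ℝ) := by positivity
    exact mul_pos (by linarith) h2
  obtain ⟨v, hvv⟩ : ∃ v, v = (1 - 1 / (d : ℝ)) * (1 / (d : ℝ)) := ⟨_, rfl⟩
  rw [← hvv] at hv
  obtain ⟨δ, hδ, S₀, h1⟩ := Pool.Agent.Helper33.ST.clt_unif hd u hε
  have hqγ : 0 < Real.sqrt (PL.gam d m) := Real.sqrt_pos.2 hγ
  have hu : PL.gam d m * (u * sd d m) = u * (Real.log m * Real.sqrt (v * (1 / PL.gam d m))) := by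
    unfold sd
    rw [← hvv, Real.sqrt_mul hv.le, Real.sqrt_div zero_le_one, Real.sqrt_one]
    field_simp
  obtain ⟨L₁, hL₁, h2⟩ := ratio a K hγ hv hlm hu hδ
  -- `s` is large
  have hev : ∀ᶠ L : ℝ in atTop, (S₀ : ℝ) + 1 + |K| ≤ L / PL.gam d m + u * sd d m * Real.sqrt L := by
    have h3 : Tendsto (fun y : ℝ => y * (y * (1 / PL.gam d m) + u * sd d m)) atTop atTop := by
      refine tendsto_id.atTop_mul_atTop₀ ?_
      exact tendsto_atTop_add_const_right _ _ (tendsto_id.atTop_mul_const (by positivity))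
    have h4 := h3.comp Real.tendsto_sqrt_atTop
    filter_upwards [h4.eventually_ge_atTop ((S₀ : ℝ) + 1 + |K|), eventually_ge_atTop 0] with L h5 h6
    have h7 : Real.sqrt L * Real.sqrt L = L := Real.mul_self_sqrt h6
    simp only [Function.comp] at h5
    have e : Real.sqrt L * (Real.sqrt L * (1 / PL.gam d m) + u * sd d m) =
        L / PL.gam d m + u * sd d m * Real.sqrt L := by
      rw [mul_add, ← mul_assoc, h7]
      ring
    linarith
  obtain ⟨L₂, hL₂⟩ := eventually_atTop.1 hev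
  refine ⟨max L₁ L₂, lt_of_lt_of_le hL₁ (le_max_left _ _), fun x hx s hs => ?_⟩
  have h3 := h2 _ ((le_max_left _ _).trans hx) s hs
  have h4 := hL₂ _ ((le_max_right _ _).trans hx)
  have h5 : S₀ + 1 ≤ (s : ℝ) := by
    have := (abs_le.1 hs).1
    have := le_abs_self K
    linarith
  have hs1 : S₀ ≤ s := by
    have : (S₀ : ℝ) ≤ s := by linarith
    exact_mod_cast this
  have hs0 : 0 < (s : ℝ) := by
    have : (0 : ℝ) ≤ S₀ := Nat.cast_nonneg _
    linarith
  have h6 := h1 s hs1 _ h3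
  rw [← hvv] at h6
  have hq : 0 < Real.sqrt (v * s) := Real.sqrt_pos.2 (by positivity)
  have e : Wf d m a x s = cW d s (fun w => (sg w : ℝ) ≤ (1 - 1 / (d : ℝ)) * s +
      (a + PL.gam d m * s - Real.log x) / (Real.log m * Real.sqrt (v * s)) * Real.sqrt (v * s)) / (d : ℝ) ^ s := by
    unfold Wf
    congr 1
    refine cW_congr fun w _ => ?_
    have e2 : (a + PL.gam d m * s - Real.log x) / (Real.log m * Real.sqrt (v * s)) * Real.sqrt (v * s) =
        (a + PL.gam d m * s - Real.log x) / Real.log m := by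
      field_simp
    rw [e2]
    have e3 : (1 - 1 / (d : ℝ)) * s + (a + PL.gam d m * s - Real.log x) / Real.log m =
        (a + s * Real.log d - Real.log x) / Real.log m := by
      unfold PL.gam
      field_simp
      ring
    rw [e3, le_div_iff₀ hlm]
  rw [e]
  exact h6

/-- The integers whose orbit meets `F` within the first `log n / γ + u σ √(log n)` steps. -/
def early (d m : ℕ) (r : ℤ → ℤ) (F : Set ℤ) (u : ℝ) : Set ℤ :=
  {n | ∃ t : ℕ, (T d m r)^[t] n ∈ F ∧ (t : ℝ) ≤ Real.log n / PL.gam d m + u * sd d m * Real.sqrt (Real.log n)}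

theorem clt (h : POSB.Std d m r) {F : Set ℤ} {b : ℝ} (hb : 0 ≤ b) (hF : ∀ n ∈ F, (n : ℝ) ≤ b) (u : ℝ) :
    Tendsto (fun x : ℝ => fd (early d m r F u) x) atTop (𝓝 (PL.dens (hitI d m r F) * cdf (gaussianReal 0 1) u)) := by
  have hγ : 0 < PL.gam d m := h.gam
  obtain ⟨D, hD⟩ : ∃ D, D = PL.dens (hitI d m r F) := ⟨_, rfl⟩
  have htend : Tendsto (fun x : ℝ => fd (hitI d m r F) x) atTop (𝓝 D) := by
    rw [hD]
    exact PL.stab_tendsto h.hd h.hdm h.hco h.hr h.gam h.mix (tinv_hitI hF)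
  have hD0 : 0 ≤ D := by
    refine ge_of_tendsto htend ?_
    filter_upwards [eventually_ge_atTop 0] with x hx
    exact fd_nonneg _ hx
  have hD1 : D ≤ 2 := by
    refine le_of_tendsto htend ?_
    filter_upwards [eventually_ge_atTop 1] with x hx
    exact fd_le_two _ hx
  rw [← hD, Metric.tendsto_atTop]
  intro ε hε
  obtain ⟨z, a, hz, ha, hbd⟩ := bounds h hb hF (ε := ε / 4) (by positivity)
  rw [← hD] at hbd
  -- the change of the threshold in `[x, 2x)`
  obtain ⟨K, hK⟩ : ∃ K : ℝ, K = 1 / PL.gam d m + |u * sd d m| + 1 := ⟨_, rfl⟩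
  have hK0 : 1 ≤ K := by
    rw [hK]
    have : 0 < 1 / PL.gam d m := by positivity
    have := abs_nonneg (u * sd d m)
    linarith
  obtain ⟨L₁, hL₁, h1⟩ := Wf_lim h.hd h.hdm hγ (-a) (2 * K) u (ε := ε / 8) (by positivity)
  obtain ⟨L₂, hL₂, h2⟩ := Wf_lim h.hd h.hdm hγ a (2 * K) u (ε := ε / 8) (by positivity)
  have hth : ∀ n y : ℝ, Real.exp 1 ≤ y → y ≤ n → n ≤ 2 * y →
      |Real.log n / PL.gam d m + u * sd d m * Real.sqrt (Real.log n) -
        (Real.log y / PL.gam d m + u * sd d m * Real.sqrt (Real.log y))| ≤ K - 1 := by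
    intro n y hy hyn hn
    have hy0 : 0 < y := lt_of_lt_of_le (Real.exp_pos 1) hy
    have hly : 1 ≤ Real.log y := by
      rw [← Real.log_exp 1]
      exact Real.log_le_log (Real.exp_pos 1) hy
    have hln : Real.log y ≤ Real.log n := Real.log_le_log hy0 hyn
    have hln2 : Real.log n ≤ Real.log y + 1 := by
      have h3 : Real.log n ≤ Real.log (2 * y) := Real.log_le_log (by linarith) hn
      rw [Real.log_mul (by norm_num) hy0.ne'] at h3
      have := Real.log_two_lt_d9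
      linarith
    have hq1 : 1 ≤ Real.sqrt (Real.log y) := by
      rw [← Real.sqrt_one]
      exact Real.sqrt_le_sqrt hly
    have hq2 : Real.sqrt (Real.log y) ≤ Real.sqrt (Real.log n) := Real.sqrt_le_sqrt hln
    have hq3 : Real.sqrt (Real.log n) ≤ Real.sqrt (Real.log y) + 1 := by
      rw [Real.sqrt_le_left (by linarith)]
      have := Real.sq_sqrt (by linarith : 0 ≤ Real.log y)
      nlinarith
    have e : Real.log n / PL.gam d m + u * sd d m * Real.sqrt (Real.log n) -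
        (Real.log y / PL.gam d m + u * sd d m * Real.sqrt (Real.log y)) =
        (Real.log n - Real.log y) / PL.gam d m + u * sd d m * (Real.sqrt (Real.log n) - Real.sqrt (Real.log y)) := by ring
    rw [e, hK]
    refine (abs_add_le _ _).trans ?_
    have h4 : |(Real.log n - Real.log y) / PL.gam d m| ≤ 1 / PL.gam d m := by
      rw [abs_div, abs_of_pos hγ]
      refine div_le_div_of_nonneg_right ?_ hγ.le
      rw [abs_le]
      constructor <;> linarith
    have h5 : |u * sd d m * (Real.sqrt (Real.log n) - Real.sqrt (Real.log y))| ≤ |u * sd d m| * 1 := by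
      rw [abs_mul]
      refine mul_le_mul_of_nonneg_left ?_ (abs_nonneg _)
      rw [abs_le]
      constructor <;> linarith
    linarith
  -- the threshold is large
  have hev : ∀ᶠ L : ℝ in atTop, 2 * K ≤ L / PL.gam d m + u * sd d m * Real.sqrt L := by
    have h3 : Tendsto (fun y : ℝ => y * (y * (1 / PL.gam d m) + u * sd d m)) atTop atTop := by
      refine tendsto_id.atTop_mul_atTop₀ ?_
      exact tendsto_atTop_add_const_right _ _ (tendsto_id.atTop_mul_const (by positivity))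
    have h4 := h3.comp Real.tendsto_sqrt_atTop
    filter_upwards [h4.eventually_ge_atTop (2 * K), eventually_ge_atTop 0] with L h5 h6
    have h7 : Real.sqrt L * Real.sqrt L = L := Real.mul_self_sqrt h6
    simp only [Function.comp] at h5
    have e : Real.sqrt L * (Real.sqrt L * (1 / PL.gam d m) + u * sd d m) =
        L / PL.gam d m + u * sd d m * Real.sqrt L := by
      rw [mul_add, ← mul_assoc, h7]
      ring
    linarith
  obtain ⟨L₃, hL₃⟩ := eventually_atTop.1 hev
  obtain ⟨x₀, hx₀⟩ := eventually_atTop.1 (Real.tendsto_log_atTop.eventually_ge_atTop (max (max L₁ L₂) L₃))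
  refine ⟨max (max x₀ z) (Real.exp 1), fun x hx => ?_⟩
  have hxx : x₀ ≤ x := (le_max_left _ _).trans ((le_max_left _ _).trans hx)
  have hxz : z ≤ x := (le_max_right _ _).trans ((le_max_left _ _).trans hx)
  have hxe : Real.exp 1 ≤ x := (le_max_right _ _).trans hx
  have hx0 : 0 < x := by linarith
  have hL := hx₀ x hxx
  have hLL₁ : L₁ ≤ Real.log x := (le_max_left _ _).trans ((le_max_left _ _).trans hL)
  have hLL₂ : L₂ ≤ Real.log x := (le_max_right _ _).trans ((le_max_left _ _).trans hL)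
  have hLL₃ : L₃ ≤ Real.log x := (le_max_right _ _).trans hL
  obtain ⟨θ, hθ⟩ : ∃ θ : ℝ, θ = Real.log x / PL.gam d m + u * sd d m * Real.sqrt (Real.log x) := ⟨_, rfl⟩
  have hθK : 2 * K ≤ θ := by rw [hθ]; exact hL₃ _ hLL₃
  -- the two times
  obtain ⟨s₁, hs₁⟩ : ∃ s : ℕ, s = ⌊θ - K⌋₊ := ⟨_, rfl⟩
  obtain ⟨s₂, hs₂⟩ : ∃ s : ℕ, s = ⌊θ + K⌋₊ := ⟨_, rfl⟩
  have a1 : (s₁ : ℝ) ≤ θ - K := by rw [hs₁]; exact Nat.floor_le (by linarith)
  have a2 : θ - K - 1 < s₁ := by rw [hs₁]; exact Nat.sub_one_lt_floor _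
  have a3 : (s₂ : ℝ) ≤ θ + K := by rw [hs₂]; exact Nat.floor_le (by linarith)
  have a4 : θ + K - 1 < s₂ := by rw [hs₂]; exact Nat.sub_one_lt_floor _
  have b1 := h1 x hLL₁ s₁ (by rw [← hθ, abs_le]; constructor <;> linarith)
  have b2 := h2 x hLL₂ s₂ (by rw [← hθ, abs_le]; constructor <;> linarith)
  have c1 : fd (hit d m r F s₁) x ≤ fd (early d m r F u) x := by
    refine fd_mono hx0.le fun n hn1 hn2 ⟨t, ht, hn⟩ => ⟨t, hn, ?_⟩
    have h3 := (abs_le.1 (hth n x hxe hn1 hn2.le)).1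
    rw [← hθ] at h3
    have h4 : (t : ℝ) ≤ s₁ := by exact_mod_cast ht
    linarith
  have c2 : fd (early d m r F u) x ≤ fd (hit d m r F s₂) x := by
    refine fd_mono hx0.le fun n hn1 hn2 ⟨t, hn, ht⟩ => ⟨t, ?_, hn⟩
    have h3 := (abs_le.1 (hth n x hxe hn1 hn2.le)).2
    rw [← hθ] at h3
    have h4 : (t : ℝ) ≤ θ + K := by linarith
    rw [hs₂]
    exact Nat.le_floor h4
  have d1 := (hbd x hxz s₁).1
  have d2 := (hbd x hxz s₂).2
  obtain ⟨Φ, hΦ⟩ : ∃ Φ : ℝ, Φ = cdf (gaussianReal 0 1) u := ⟨_, rfl⟩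
  rw [← hΦ] at b1 b2 ⊢
  rw [abs_le] at b1 b2
  have e1 : D * (Φ - ε / 8) ≤ D * Wf d m (-a) x s₁ := mul_le_mul_of_nonneg_left (by linarith) hD0
  have e2 : D * Wf d m a x s₂ ≤ D * (Φ + ε / 8) := mul_le_mul_of_nonneg_left (by linarith) hD0
  have e3 : D * (ε / 8) ≤ 2 * (ε / 8) := mul_le_mul_of_nonneg_right hD1 (by positivity)
  rw [Real.dist_eq, abs_lt]
  constructor <;> nlinarith

end Pool.Agent.Helper8.ST
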