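import Pool.Agent.Helper8.SI.F
import Pool.Agent.Helper8.PW.LD
import Pool.Agent.Helper28.POSB.Inv

/-!
# The integers whose orbit meets `F` after at most `s` steps: the flow

`F` is a set of integers which is bounded above by `b`.
-/

set_option autoImplicit false

namespace Pool.Agent.Helper8.ST

open Pool.Agent.Helper68.Moeller Pool.Agent.Helper52.Tao Pool.Agent.Helper8.ND Pool.Agent.Helper28
  Pool.Agent.Helper91 Pool.Agent.Helper8.PW Filter Topology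

variable {d m : ℕ} {r : ℤ → ℤ}

/-- The integers whose orbit meets `F` after at most `s` steps. -/
def hit (d m : ℕ) (r : ℤ → ℤ) (F : Set ℤ) (s : ℕ) : Set ℤ := {n | ∃ t ≤ s, (T d m r)^[t] n ∈ F}

/-- The integers whose orbit meets `F`. -/
def hitI (d m : ℕ) (r : ℤ → ℤ) (F : Set ℤ) : Set ℤ := {n | ∃ t : ℕ, (T d m r)^[t] n ∈ F}

theorem hit_mono {F : Set ℤ} {s s' : ℕ} (h : s ≤ s') : hit d m r F s ⊆ hit d m r F s' :=
  fun _ ⟨t, ht, hn⟩ => ⟨t, ht.trans h, hn⟩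

theorem hit_sub {F : Set ℤ} {s : ℕ} : hit d m r F s ⊆ hitI d m r F := fun _ ⟨t, _, hn⟩ => ⟨t, hn⟩

/-- The first points of the orbit of a large integer are large. -/
theorem iter_gt (hd : 2 ≤ d) (hdm : d < m) (hr : Admissible d m r) {B : ℕ}
    (hB : ∀ j : ℤ, 0 < j → j < (d : ℤ) → |r j| ≤ B) {z : ℝ} (hz : 0 ≤ z) {t : ℕ} {n : ℤ}
    (hn : (B : ℝ) * m ^ t + z * d ^ t < n) : ∀ i : ℕ, i ≤ t → z < ((T d m r)^[i] n : ℝ) := by
  have hd1 : (1 : ℝ) ≤ d := by exact_mod_cast (by omega : 1 ≤ d)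
  have hm1 : (1 : ℝ) ≤ m := by exact_mod_cast (by omega : 1 ≤ m)
  have hn0 : (0 : ℝ) ≤ n := by
    have h1 : (0 : ℝ) ≤ (B : ℝ) * m ^ t := by positivity
    have h2 : 0 ≤ z * (d : ℝ) ^ t := by positivity
    linarith
  intro i hi
  have h1 := wd_spec hd hr i n
  have h2 := abs_Off_le hd hdm hB (wd_mem (m := m) hd r i n)
  have h3 : (d : ℝ) ^ i * ((T d m r)^[i] n : ℝ) =
      (m : ℝ) ^ sg (wd d m r i n) * n - (Off d m r (wd d m r i n) : ℝ) := by exact_mod_cast h1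
  have h4 : ((Off d m r (wd d m r i n) : ℤ) : ℝ) ≤ B * (m : ℝ) ^ i := by
    have := (le_abs_self _).trans h2
    exact_mod_cast this
  have h5 : (B : ℝ) * (m : ℝ) ^ i ≤ B * (m : ℝ) ^ t :=
    mul_le_mul_of_nonneg_left (pow_le_pow_right₀ hm1 hi) (Nat.cast_nonneg B)
  have h6 : z * (d : ℝ) ^ i ≤ z * (d : ℝ) ^ t :=
    mul_le_mul_of_nonneg_left (pow_le_pow_right₀ hd1 hi) hz
  have h7 : (n : ℝ) ≤ (m : ℝ) ^ sg (wd d m r i n) * n :=
    le_mul_of_one_le_left hn0 (one_le_pow₀ hm1)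
  have h8 : (d : ℝ) ^ i * z < (d : ℝ) ^ i * ((T d m r)^[i] n : ℝ) := by
    rw [h3]
    linarith
  exact lt_of_mul_lt_mul_left h8 (by positivity)

theorem hit_iter (hd : 2 ≤ d) (hdm : d < m) (hr : Admissible d m r) {B : ℕ}
    (hB : ∀ j : ℤ, 0 < j → j < (d : ℤ) → |r j| ≤ B) {b : ℝ} (hb : 0 ≤ b) {F : Set ℤ} (hF : ∀ n ∈ F, (n : ℝ) ≤ b)
    {j s : ℕ} (hjs : j ≤ s) {n : ℤ} (hn : (B : ℝ) * m ^ j + b * d ^ j < n) :
    n ∈ hit d m r F s ↔ (T d m r)^[j] n ∈ hit d m r F (s - j) := by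
  have h1 := iter_gt hd hdm hr hB hb hn
  constructor
  · rintro ⟨t, ht, hnt⟩
    have h2 : j ≤ t := by
      by_contra hcon
      push Not at hcon
      have := h1 t hcon.le
      linarith [hF _ hnt]
    refine ⟨t - j, by omega, ?_⟩
    rw [← Function.iterate_add_apply, Nat.sub_add_cancel h2]
    exact hnt
  · rintro ⟨t, ht, hnt⟩
    refine ⟨t + j, by omega, ?_⟩
    rw [Function.iterate_add_apply]
    exact hnt

theorem tinv_hitI {b : ℝ} {F : Set ℤ} (hF : ∀ n ∈ F, (n : ℝ) ≤ b) : TInv d m r (hitI d m r F) b := by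
  intro n hn
  constructor
  · rintro ⟨t, ht⟩
    rcases t with - | t
    · exact absurd (hF n ht) (not_le.2 hn)
    · exact ⟨t, by rwa [Function.iterate_succ_apply] at ht⟩
  · rintro ⟨t, ht⟩
    exact ⟨t + 1, by rwa [Function.iterate_succ_apply]⟩

theorem fd_congr {A A' : Set ℤ} {x : ℝ} (h : ∀ n : ℤ, x ≤ n → (n ∈ A ↔ n ∈ A')) : fd A x = fd A' x := by
  unfold fd
  congr 3
  ext n
  simp only [Set.mem_ofPred_eq]
  constructor
  · rintro ⟨h1, h2, h3⟩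
    exact ⟨h1, h2, (h n h1).1 h3⟩
  · rintro ⟨h1, h2, h3⟩
    exact ⟨h1, h2, (h n h1).2 h3⟩

theorem fi_eq_fd (A : Set ℤ) (x : ℝ) : SI.fi A x x = fd A x := by
  unfold SI.fi fd
  rw [← two_mul]

theorem fd_mono {A A' : Set ℤ} {x : ℝ} (hx : 0 ≤ x) (h : ∀ n : ℤ, x ≤ n → (n : ℝ) < 2 * x → n ∈ A → n ∈ A') :
    fd A x ≤ fd A' x := by
  unfold fd
  refine div_le_div_of_nonneg_right ?_ hx
  have h1 : {n : ℤ | x ≤ n ∧ (n : ℝ) < 2 * x ∧ n ∈ A} ⊆ {n : ℤ | x ≤ n ∧ (n : ℝ) < 2 * x ∧ n ∈ A'} :=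
    fun n hn => ⟨hn.1, hn.2.1, h n hn.1 hn.2.1 hn.2.2⟩
  have h2 : {n : ℤ | x ≤ n ∧ (n : ℝ) < 2 * x ∧ n ∈ A'}.Finite :=
    (finite_Ico x (2 * x)).subset fun n hn => ⟨hn.1, hn.2.1⟩
  exact_mod_cast Set.ncard_le_ncard h1 h2

theorem flow_hit (h : POSB.Std d m r) {F : Set ℤ} {b : ℝ} (hb : 0 ≤ b) (hF : ∀ n ∈ F, (n : ℝ) ≤ b) :
    ∃ C : ℝ, 1 ≤ C ∧ ∀ t s : ℕ, 1 ≤ t → t + t ≤ s → ∀ x : ℝ, C * ((d : ℝ) * m) ^ (8 * t) ≤ x →
      |fd (hit d m r F s) x - (∑ v ∈ W d t, fd (hit d m r F (s - t)) (x * (m : ℝ) ^ sg v / (d : ℝ) ^ t)) / (d : ℝ) ^ t| ≤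
        C / (t : ℝ) ^ 2 := by
  have hd := h.hd
  have hdm := h.hdm
  obtain ⟨C₀, hC₀, hflow⟩ := SI.flowI h.hd h.hdm h.hco h.hr h.mix 2
  obtain ⟨B, hB⟩ := FL_exists_B d r
  have hB0 : (0 : ℝ) ≤ B := Nat.cast_nonneg B
  refine ⟨C₀ + 3 + (B + b), by linarith, ?_⟩
  intro t s ht hts x hx
  have hd1R : (1 : ℝ) ≤ d := by exact_mod_cast (by omega : 1 ≤ d)
  have hm1R : (1 : ℝ) ≤ m := by exact_mod_cast (by omega : 1 ≤ m)
  have hd2 : (2 : ℝ) ≤ d := by exact_mod_cast hd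
  have hm3 : (3 : ℝ) ≤ m := by exact_mod_cast (by omega : 3 ≤ m)
  have hdm4 : (4 : ℝ) ≤ (d : ℝ) * m := by nlinarith
  have hdm1 : (1 : ℝ) ≤ (d : ℝ) * m := by linarith
  have ht0 : (0 : ℝ) < t := by exact_mod_cast ht
  have hdt : (0 : ℝ) < (d : ℝ) ^ t := by positivity
  have hP : (1 : ℝ) ≤ ((d : ℝ) * m) ^ (8 * t) := one_le_pow₀ hdm1
  have hP0 : (0 : ℝ) < ((d : ℝ) * m) ^ (8 * t) := by linarith
  have hx1 : C₀ * ((d : ℝ) * m) ^ (8 * t) ≤ x := by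
    refine le_trans ?_ hx
    apply mul_le_mul_of_nonneg_right _ hP0.le
    linarith
  have hx2 : (3 + (B + b)) * ((d : ℝ) * m) ^ (8 * t) ≤ x := by
    refine le_trans ?_ hx
    apply mul_le_mul_of_nonneg_right _ hP0.le
    linarith
  have hxP : ((d : ℝ) * m) ^ (8 * t) ≤ x := by nlinarith
  have hx0 : 0 < x := by linarith
  -- large integers
  have hdle : (d : ℝ) ≤ (d : ℝ) * m := le_mul_of_one_le_right (by linarith) hm1R
  have hmle : (m : ℝ) ≤ (d : ℝ) * m := le_mul_of_one_le_left (by linarith) hd1R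
  have hbig : ∀ j : ℕ, (B : ℝ) * m ^ j + b * d ^ j ≤ (B + b) * ((d : ℝ) * m) ^ j := by
    intro j
    have a1 : (B : ℝ) * m ^ j ≤ B * ((d : ℝ) * m) ^ j :=
      mul_le_mul_of_nonneg_left (pow_le_pow_left₀ (by positivity) hmle j) hB0
    have a2 : b * (d : ℝ) ^ j ≤ b * ((d : ℝ) * m) ^ j :=
      mul_le_mul_of_nonneg_left (pow_le_pow_left₀ (by positivity) hdle j) hb
    linarith
  have e1 : ∀ n : ℤ, x ≤ n → (n ∈ hit d m r F s ↔ (T d m r)^[t + t] n ∈ hit d m r F (s - (t + t))) := by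
    intro n hn
    refine hit_iter hd hdm h.hr hB hb hF hts ?_
    have a1 : ((d : ℝ) * m) ^ (t + t) ≤ ((d : ℝ) * m) ^ (8 * t) := pow_le_pow_right₀ hdm1 (by omega)
    have a2 : ((B : ℝ) + b) * ((d : ℝ) * m) ^ (t + t) ≤ (B + b) * ((d : ℝ) * m) ^ (8 * t) :=
      mul_le_mul_of_nonneg_left a1 (by linarith)
    have := hbig (t + t)
    nlinarith
  have e2 : ∀ v ∈ W d t, ∀ n : ℤ, x * (m : ℝ) ^ sg v / (d : ℝ) ^ t ≤ n →
      (n ∈ hit d m r F (s - t) ↔ (T d m r)^[t] n ∈ hit d m r F (s - (t + t))) := by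
    intro v _ n hn
    have e3 : s - (t + t) = s - t - t := by omega
    rw [e3]
    refine hit_iter hd hdm h.hr hB hb hF (by omega) ?_
    have a1 : x / (d : ℝ) ^ t ≤ n := by
      refine le_trans ?_ hn
      apply div_le_div_of_nonneg_right _ hdt.le
      exact le_mul_of_one_le_right hx0.le (one_le_pow₀ hm1R)
    have a2 : ((B : ℝ) + b + 1) * ((d : ℝ) * m) ^ t ≤ x / (d : ℝ) ^ t := by
      rw [le_div_iff₀ hdt]
      have a3 : (d : ℝ) ^ t ≤ ((d : ℝ) * m) ^ t := pow_le_pow_left₀ (by positivity) hdle t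
      have a4 : ((d : ℝ) * m) ^ t * (d : ℝ) ^ t ≤ ((d : ℝ) * m) ^ (8 * t) := by
        calc ((d : ℝ) * m) ^ t * (d : ℝ) ^ t ≤ ((d : ℝ) * m) ^ t * ((d : ℝ) * m) ^ t :=
              mul_le_mul_of_nonneg_left a3 (by positivity)
          _ = ((d : ℝ) * m) ^ (t + t) := by rw [pow_add]
          _ ≤ ((d : ℝ) * m) ^ (8 * t) := pow_le_pow_right₀ hdm1 (by omega)
      calc ((B : ℝ) + b + 1) * ((d : ℝ) * m) ^ t * (d : ℝ) ^ t = (B + b + 1) * (((d : ℝ) * m) ^ t * (d : ℝ) ^ t) := by ring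
        _ ≤ (B + b + 1) * ((d : ℝ) * m) ^ (8 * t) := mul_le_mul_of_nonneg_left a4 (by linarith)
        _ ≤ (3 + (B + b)) * ((d : ℝ) * m) ^ (8 * t) := mul_le_mul_of_nonneg_right (by linarith) hP0.le
        _ ≤ x := hx2
    have a5 := hbig t
    have a6 : (1 : ℝ) ≤ ((d : ℝ) * m) ^ t := one_le_pow₀ hdm1
    nlinarith
  -- both directions
  have key : ∀ G G' G'' : Set ℤ, (∀ n : ℤ, x ≤ n → (n ∈ G ↔ (T d m r)^[t + t] n ∈ G'')) →
      (∀ v ∈ W d t, ∀ n : ℤ, x * (m : ℝ) ^ sg v / (d : ℝ) ^ t ≤ n → (n ∈ G' ↔ (T d m r)^[t] n ∈ G'')) →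
      fd G x ≤ (∑ v ∈ W d t, fd G' (x * (m : ℝ) ^ sg v / (d : ℝ) ^ t)) / (d : ℝ) ^ t + C₀ / (t : ℝ) ^ 2 := by
    intro G G' G'' h1 h2
    have h3 := hflow t ht x x hx1 G''
    rw [fi_eq_fd, fd_congr (A := {n : ℤ | (T d m r)^[t + t] n ∈ G''}) (A' := G) (fun n hn => (h1 n hn).symm)] at h3
    have h4 : ∑ v ∈ W d t, SI.fi {n | (T d m r)^[t] n ∈ G''} (x * (m : ℝ) ^ sg v / (d : ℝ) ^ t)
        (x * (m : ℝ) ^ sg v / (d : ℝ) ^ t) = ∑ v ∈ W d t, fd G' (x * (m : ℝ) ^ sg v / (d : ℝ) ^ t) := by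
      refine Finset.sum_congr rfl fun v hv => ?_
      rw [fi_eq_fd]
      exact fd_congr fun n hn => (h2 v hv n hn).symm
    rw [h4] at h3
    have h5 : C₀ * (t : ℝ) ^ (-(2 : ℝ)) = C₀ / (t : ℝ) ^ 2 := by
      rw [Real.rpow_neg ht0.le, div_eq_mul_inv]
      congr 2
      exact_mod_cast Real.rpow_natCast (t : ℝ) 2
    rw [h5] at h3
    exact h3
  have hup := key _ _ _ e1 e2
  have hlo := key (hit d m r F s)ᶜ (hit d m r F (s - t))ᶜ (hit d m r F (s - (t + t)))ᶜ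
    (fun n hn => not_congr (e1 n hn)) (fun v hv n hn => not_congr (e2 v hv n hn))
  obtain ⟨S, hS⟩ : ∃ S, S = ∑ v ∈ W d t, fd (hit d m r F (s - t)) (x * (m : ℝ) ^ sg v / (d : ℝ) ^ t) := ⟨_, rfl⟩
  obtain ⟨S', hS'⟩ : ∃ S', S' = ∑ v ∈ W d t, fd (hit d m r F (s - t))ᶜ (x * (m : ℝ) ^ sg v / (d : ℝ) ^ t) := ⟨_, rfl⟩
  rw [← hS] at hup ⊢
  rw [← hS'] at hlo
  have hinv : (d : ℝ) ^ t / x ≤ 1 / (t : ℝ) ^ 2 := by
    rw [div_le_div_iff₀ hx0 (by positivity), one_mul]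
    have h2 := pow_eight_le hdm4 (t := t)
    have h3 : (d : ℝ) ^ t ≤ ((d : ℝ) * m) ^ t := pow_le_pow_left₀ (by positivity) hdle t
    have h4 : (t : ℝ) ^ 2 ≤ (t : ℝ) ^ 8 := pow_le_pow_right₀ (by exact_mod_cast ht) (by norm_num)
    calc (d : ℝ) ^ t * (t : ℝ) ^ 2 ≤ ((d : ℝ) * m) ^ t * ((d : ℝ) * m) ^ (7 * t) :=
          mul_le_mul h3 (h4.trans h2) (by positivity) (by positivity)
      _ = ((d : ℝ) * m) ^ (8 * t) := by rw [← pow_add]; congr 1; ring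
      _ ≤ x := hxP
  have hinv1 : 1 / x ≤ 1 / (t : ℝ) ^ 2 := by
    refine le_trans ?_ hinv
    exact div_le_div_of_nonneg_right (one_le_pow₀ hd1R) hx0.le
  have hSS : S + S' ≤ (d : ℝ) ^ t * (1 + 1 / (t : ℝ) ^ 2) := by
    rw [hS, hS', ← Finset.sum_add_distrib]
    have h2 : ∀ v ∈ W d t, fd (hit d m r F (s - t)) (x * (m : ℝ) ^ sg v / (d : ℝ) ^ t) +
        fd (hit d m r F (s - t))ᶜ (x * (m : ℝ) ^ sg v / (d : ℝ) ^ t) ≤ 1 + 1 / (t : ℝ) ^ 2 := by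
      intro v _
      have h3 : 0 < x * (m : ℝ) ^ sg v / (d : ℝ) ^ t := by positivity
      have h4 := (abs_le.1 (fd_add_compl (hit d m r F (s - t)) h3)).2
      have h5 : 1 / (x * (m : ℝ) ^ sg v / (d : ℝ) ^ t) ≤ (d : ℝ) ^ t / x := by
        rw [one_div, inv_div]
        apply div_le_div_of_nonneg_left hdt.le hx0
        exact le_mul_of_one_le_right hx0.le (one_le_pow₀ hm1R)
      linarith
    refine (Finset.sum_le_sum h2).trans (le_of_eq ?_)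
    rw [Finset.sum_const, card_W, nsmul_eq_mul]
    push_cast
    rfl
  have hSS' : S / (d : ℝ) ^ t + S' / (d : ℝ) ^ t ≤ 1 + 1 / (t : ℝ) ^ 2 := by
    rw [← add_div, div_le_iff₀ hdt]
    linarith
  have h6 := (abs_le.1 (fd_add_compl (hit d m r F s) hx0)).1
  have e : (C₀ + 3 + (B + b)) / (t : ℝ) ^ 2 = C₀ / (t : ℝ) ^ 2 + (3 + (B + b)) * (1 / (t : ℝ) ^ 2) := by ring
  have h7 : 0 < 1 / (t : ℝ) ^ 2 := by positivity
  have h8 : 0 ≤ (B + b) * (1 / (t : ℝ) ^ 2) := by positivity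
  rw [e, abs_le]
  constructor <;> linarith

end Pool.Agent.Helper8.ST
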