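import Pool.Agent.Helper8.ST.Cmp
import Pool.Agent.Helper8.ST.Hit
import Pool.Agent.Helper68.ST.Sup

/-!
# The law of the hitting time in terms of a random walk

`Wf d m a x s`: the probability that `log x + Y_s ≤ a`, `Y_s = N_s log m - s log d`, `N_s` binomial.
`bounds`: `D Wf (-a) x s - ε ≤ fd (hit F s) x ≤ D Wf a x s + ε` for all `x ≥ z` and all `s`, where `D` is the density of the integers whose orbit
meets `F`.
-/

set_option autoImplicit false

namespace Pool.Agent.Helper8.ST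

open Pool.Agent.Helper68.Moeller Pool.Agent.Helper52.Tao Pool.Agent.Helper8.ND Pool.Agent.Helper28
  Pool.Agent.Helper91 Pool.Agent.Helper8.PW Filter Topology

variable {d m : ℕ} {r : ℤ → ℤ}

/-- The probability that `log x + Y_s ≤ a`. -/
noncomputable def Wf (d m : ℕ) (a x : ℝ) (s : ℕ) : ℝ :=
  cW d s (fun w => (sg w : ℝ) * Real.log m ≤ a + s * Real.log d - Real.log x) / (d : ℝ) ^ s

theorem Wf_nonneg (a x : ℝ) (s : ℕ) : 0 ≤ Wf d m a x s := div_nonneg (cW_nonneg _ _ _) (by positivity)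

theorem Wf_le_one (hd : 2 ≤ d) (a x : ℝ) (s : ℕ) : Wf d m a x s ≤ 1 := by
  have hd0 : (0 : ℝ) < d := by exact_mod_cast (by omega : 0 < d)
  unfold Wf
  rw [div_le_one (by positivity)]
  exact cW_le_pow _ _ _

/-- The exact flow. -/
theorem Wf_flow (hd : 2 ≤ d) (hdm : d < m) (a : ℝ) {x : ℝ} (hx : 0 < x) {t s : ℕ} (hts : t ≤ s) :
    Wf d m a x s = (∑ v ∈ W d t, Wf d m a (x * (m : ℝ) ^ sg v / (d : ℝ) ^ t) (s - t)) / (d : ℝ) ^ t := by
  have hd0 : (0 : ℝ) < d := by exact_mod_cast (by omega : 0 < d)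
  have hm0 : (0 : ℝ) < m := by exact_mod_cast (by omega : 0 < m)
  unfold Wf
  rw [Pool.Agent.Helper68.ST.cW_split hts, ← Finset.sum_div, div_div]
  have e1 : (d : ℝ) ^ (s - t) * (d : ℝ) ^ t = (d : ℝ) ^ s := by rw [← pow_add, Nat.sub_add_cancel hts]
  rw [e1]
  congr 1
  refine Finset.sum_congr rfl fun v _ => cW_congr fun w _ => ?_
  have e2 : Real.log (x * (m : ℝ) ^ sg v / (d : ℝ) ^ t) = Real.log x + sg v * Real.log m - t * Real.log d := by
    rw [Real.log_div (by positivity) (by positivity), Real.log_mul hx.ne' (by positivity), Real.log_pow, Real.log_pow]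
  have e3 : ((s - t : ℕ) : ℝ) = s - t := by push_cast [hts]; ring
  rw [e2, e3]
  push_cast
  constructor <;> intro h <;> linarith

/-- At a bounded scale the walk is below a large level, for all `s`. -/
theorem Wf_base (hd : 2 ≤ d) (hdm : d < m) (hγ : (1 - 1 / (d : ℝ)) * Real.log m < Real.log d) (y : ℝ) {ε : ℝ}
    (hε : 0 < ε) : ∃ a : ℝ, 0 ≤ a ∧ ∀ x : ℝ, 0 < x → x ≤ y → ∀ s : ℕ, 1 - ε ≤ Wf d m a x s := by
  obtain ⟨κ, hκ, h⟩ := Pool.Agent.Helper68.ST.sup_walk hd hdm hγ
  have hd0 : (0 : ℝ) < d := by exact_mod_cast (by omega : 0 < d)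
  obtain ⟨b, hb⟩ : ∃ b : ℝ, b = max 0 (-(Real.log ε / κ)) := ⟨_, rfl⟩
  have hb0 : 0 ≤ b := by rw [hb]; exact le_max_left _ _
  have hb1 : Real.exp (-(κ * b)) ≤ ε := by
    have h1 : -(Real.log ε / κ) ≤ b := by rw [hb]; exact le_max_right _ _
    have h2 : -Real.log ε ≤ κ * b := by
      have := mul_le_mul_of_nonneg_left h1 hκ.le
      have e : κ * -(Real.log ε / κ) = -Real.log ε := by field_simp
      linarith
    calc Real.exp (-(κ * b)) ≤ Real.exp (Real.log ε) := Real.exp_le_exp.2 (by linarith)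
      _ = ε := Real.exp_log hε
  refine ⟨b + |Real.log y|, by positivity, fun x hx hxy s => ?_⟩
  have hlx : Real.log x ≤ |Real.log y| := (Real.log_le_log hx hxy).trans (le_abs_self _)
  have hds : (0 : ℝ) < (d : ℝ) ^ s := by positivity
  have h1 := h s b
  have h2 : (d : ℝ) ^ s ≤ cW d s (fun w => b ≤ (sg w : ℝ) * Real.log m - s * Real.log d) +
      cW d s (fun w => (sg w : ℝ) * Real.log m ≤ b + |Real.log y| + s * Real.log d - Real.log x) := by
    rw [← cW_true d s]
    refine le_trans (cW_mono fun w _ _ => ?_) (cW_or_le d s _ _)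
    by_cases hc : b ≤ (sg w : ℝ) * Real.log m - s * Real.log d
    · exact Or.inl hc
    · right
      push Not at hc
      linarith
  unfold Wf
  rw [le_div_iff₀ hds]
  have h3 : (d : ℝ) ^ s * Real.exp (-(κ * b)) ≤ (d : ℝ) ^ s * ε := mul_le_mul_of_nonneg_left hb1 hds.le
  linarith

/-- The walk has not yet reached a low level. -/
theorem Wf_zero (hd : 2 ≤ d) (hdm : d < m) {a x : ℝ} {s : ℕ} (h : a + s * Real.log d < Real.log x) :
    Wf d m a x s = 0 := by
  have hm1 : (1 : ℝ) ≤ m := by exact_mod_cast (by omega : 1 ≤ m)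
  have hlm : 0 ≤ Real.log m := Real.log_nonneg hm1
  unfold Wf
  have : cW d s (fun w => (sg w : ℝ) * Real.log m ≤ a + s * Real.log d - Real.log x) = 0 := by
    classical
    rw [cW_eq_sum]
    refine Finset.sum_eq_zero fun w _ => if_neg ?_
    push Not
    have : 0 ≤ (sg w : ℝ) * Real.log m := by positivity
    linarith
  rw [this, zero_div]

/-- **The law of the hitting time.** -/
theorem bounds (h : POSB.Std d m r) {F : Set ℤ} {b : ℝ} (hb : 0 ≤ b) (hF : ∀ n ∈ F, (n : ℝ) ≤ b) {ε : ℝ} (hε : 0 < ε) :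
    ∃ z a : ℝ, 1 < z ∧ 0 ≤ a ∧ ∀ x : ℝ, z ≤ x → ∀ s : ℕ,
      PL.dens (hitI d m r F) * Wf d m (-a) x s - ε ≤ fd (hit d m r F s) x ∧
      fd (hit d m r F s) x ≤ PL.dens (hitI d m r F) * Wf d m a x s + ε := by
  have hd := h.hd
  have hdm := h.hdm
  have hγ : (1 - 1 / (d : ℝ)) * Real.log m < Real.log d := by
    have := h.gam
    unfold PL.gam at this
    linarith
  have hd0 : (0 : ℝ) < d := by exact_mod_cast (by omega : 0 < d)
  have hd1 : (1 : ℝ) < d := by exact_mod_cast (by omega : 1 < d)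
  have hm1 : (1 : ℝ) < m := by exact_mod_cast (by omega : 1 < m)
  have hld : 0 < Real.log d := Real.log_pos hd1
  have hlm : 0 < Real.log m := Real.log_pos hm1
  have hldm : Real.log d ≤ Real.log m := Real.log_le_log hd0 (by exact_mod_cast hdm.le)
  obtain ⟨D, hD⟩ : ∃ D, D = PL.dens (hitI d m r F) := ⟨_, rfl⟩
  rw [← hD]
  have htend : Tendsto (fun x : ℝ => fd (hitI d m r F) x) atTop (𝓝 D) := by
    rw [hD]
    exact PL.stab_tendsto h.hd h.hdm h.hco h.hr h.gam h.mix (tinv_hitI hF)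
  have hD0 : 0 ≤ D := by
    refine ge_of_tendsto htend ?_
    filter_upwards [eventually_ge_atTop 0] with x hx
    exact fd_nonneg _ hx
  have hD1 : D ≤ 1 := by
    have h2 : Tendsto (fun x : ℝ => 1 + 1 / x) atTop (𝓝 (1 + 0)) := by
      refine Tendsto.add tendsto_const_nhds ?_
      exact tendsto_const_nhds.div_atTop tendsto_id
    rw [add_zero] at h2
    refine le_of_tendsto_of_tendsto htend h2 ?_
    filter_upwards [eventually_ge_atTop 1] with x hx
    have hx0 : 0 < x := by linarith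
    have h3 := (abs_le.1 (fd_add_compl (hitI d m r F) hx0)).2
    have h4 := fd_nonneg (hitI d m r F)ᶜ hx0.le
    linarith
  obtain ⟨c, hc, hcm, hcmp⟩ := cmp hd hdm hγ
  obtain ⟨C, hC, hflow⟩ := flow_hit h hb hF
  obtain ⟨z₀, hz₀, hcmp⟩ := hcmp C hC
  obtain ⟨B, hB⟩ := FL_exists_B d r
  have hB0 : (0 : ℝ) ≤ B := Nat.cast_nonneg B
  -- the threshold `z`
  have hev1 : ∀ᶠ x : ℝ in atTop, |fd (hitI d m r F) x - D| ≤ ε / 4 := by
    have := (tendsto_order.1 ((htend.sub_const D).abs)).2 (ε / 4) (by rw [sub_self, abs_zero]; positivity)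
    filter_upwards [this] with x hx using hx.le
  obtain ⟨z₁, hz₁⟩ := eventually_atTop.1 hev1
  have hev2 : ∀ᶠ x : ℝ in atTop, 1 / Real.log x ≤ ε / 2 := by
    filter_upwards [Real.tendsto_log_atTop.eventually_ge_atTop (2 / ε)] with x hx
    have : 0 < 2 / ε := by positivity
    rw [div_le_iff₀ (by linarith)]
    rw [div_le_iff₀ hε] at hx
    linarith
  obtain ⟨z₂, hz₂⟩ := eventually_atTop.1 hev2
  obtain ⟨z, hz⟩ : ∃ z, z = max (max z₀ z₁) (max z₂ ((B + b + 1) ^ 2)) := ⟨_, rfl⟩
  have hzz₀ : z₀ ≤ z := by rw [hz]; exact (le_max_left _ _).trans (le_max_left _ _)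
  have hzz₁ : z₁ ≤ z := by rw [hz]; exact (le_max_right _ _).trans (le_max_left _ _)
  have hzz₂ : z₂ ≤ z := by rw [hz]; exact (le_max_left _ _).trans (le_max_right _ _)
  have hzB : (B + b + 1) ^ 2 ≤ z := by rw [hz]; exact (le_max_right _ _).trans (le_max_right _ _)
  have hz1 : 1 < z := by linarith
  have hz0 : 0 < z := by linarith
  have hlogz := hz₂ z hzz₂
  have hfdI : ∀ x : ℝ, z ≤ x → |fd (hitI d m r F) x - D| ≤ ε / 4 := fun x hx => hz₁ x (hzz₁.trans hx)
  -- small `s`: no hit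
  have hsmall : ∀ x : ℝ, z ≤ x → ∀ s : ℕ, (s : ℝ) < c * Real.log x → fd (hit d m r F s) x = 0 := by
    intro x hx s hs
    have hx1 : 1 < x := by linarith
    have hx0 : 0 < x := by linarith
    have hlx : 0 < Real.log x := Real.log_pos hx1
    have h1 : (m : ℝ) ^ s ≤ x ^ (1 / 4 : ℝ) := by
      rw [← Real.rpow_natCast, Real.rpow_def_of_pos (by linarith), Real.rpow_def_of_pos hx0]
      apply Real.exp_le_exp.2
      have h2 : Real.log m * (s : ℝ) ≤ Real.log m * (c * Real.log x) := mul_le_mul_of_nonneg_left hs.le hlm.le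
      have h3 : (c * Real.log m) * Real.log x ≤ 1 / 4 * Real.log x := mul_le_mul_of_nonneg_right hcm hlx.le
      nlinarith
    have h2 : (d : ℝ) ^ s ≤ (m : ℝ) ^ s := pow_le_pow_left₀ hd0.le (by exact_mod_cast hdm.le) s
    have h3 : x ^ (1 / 4 : ℝ) * x ^ (1 / 4 : ℝ) = Real.sqrt x := by
      rw [← Real.rpow_add hx0, Real.sqrt_eq_rpow]
      norm_num
    have h4 : B + b + 1 ≤ Real.sqrt x := Real.le_sqrt_of_sq_le (hzB.trans hx)
    have hs0 : 0 ≤ Real.sqrt x := Real.sqrt_nonneg x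
    have h5 : Real.sqrt x * Real.sqrt x = x := Real.mul_self_sqrt hx0.le
    have h6 : x ^ (1 / 4 : ℝ) ≤ Real.sqrt x := by
      rw [Real.sqrt_eq_rpow]
      exact Real.rpow_le_rpow_of_exponent_le hx1.le (by norm_num)
    have h7 : (B : ℝ) * m ^ s + b * d ^ s < x := by
      have a1 : (B : ℝ) * m ^ s ≤ B * Real.sqrt x := mul_le_mul_of_nonneg_left (h1.trans h6) hB0
      have a2 : b * (d : ℝ) ^ s ≤ b * Real.sqrt x := mul_le_mul_of_nonneg_left (h2.trans (h1.trans h6)) hb
      have a3 : (B + b + 1) * Real.sqrt x ≤ Real.sqrt x * Real.sqrt x := mul_le_mul_of_nonneg_right h4 hs0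
      have a4 : 0 < Real.sqrt x := Real.sqrt_pos.2 hx0
      nlinarith
    have h8 : {n : ℤ | x ≤ n ∧ (n : ℝ) < 2 * x ∧ n ∈ hit d m r F s} = ∅ := by
      rw [Set.eq_empty_iff_forall_notMem]
      rintro n ⟨k1, k2, t, ht, hn⟩
      have := iter_gt hd hdm h.hr hB hb (lt_of_lt_of_le h7 k1) t ht
      linarith [hF _ hn]
    unfold fd
    rw [h8, Set.ncard_empty]
    simp
  -- the upper bound
  obtain ⟨a₁, ha₁, hW⟩ := Wf_base hd hdm hγ (z ^ 2) (ε := ε / 4) (by positivity)
  -- the number of steps below `2 z ^ 2`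
  obtain ⟨S, hS⟩ : ∃ S : ℕ, ∀ n : ℤ, 0 < n → (n : ℝ) < 2 * z ^ 2 → n ∈ hitI d m r F → n ∈ hit d m r F S := by
    classical
    have hfin : {n : ℤ | (0 : ℝ) ≤ n ∧ (n : ℝ) < 2 * z ^ 2}.Finite := finite_Ico _ _
    choose! f hf using (fun (n : ℤ) (hn : n ∈ hitI d m r F) => hn : ∀ n : ℤ, n ∈ hitI d m r F → ∃ t : ℕ, (T d m r)^[t] n ∈ F)
    refine ⟨∑ n ∈ hfin.toFinset, f n, fun n hn0 hn hni => ⟨f n, ?_, hf n hni⟩⟩
    refine Finset.single_le_sum (f := f) (fun _ _ => Nat.zero_le _) ?_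
    rw [Set.Finite.mem_toFinset]
    exact ⟨by exact_mod_cast hn0.le, hn⟩
  obtain ⟨a, ha⟩ : ∃ a : ℝ, a = max a₁ (S * Real.log d) := ⟨_, rfl⟩
  have haa₁ : a₁ ≤ a := by rw [ha]; exact le_max_left _ _
  have haS : S * Real.log d ≤ a := by rw [ha]; exact le_max_right _ _
  have ha0 : 0 ≤ a := ha₁.trans haa₁
  refine ⟨z, a, hz1, ha0, fun x hx s => ⟨?_, ?_⟩⟩
  · -- lower bound
    have hmain := hcmp z hzz₀ (ε / 4) (by positivity)
      (fun x s => D * Wf d m (-a) x s - fd (hit d m r F s) x) ?_ ?_ ?_ ?_ x hx s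
    · linarith
    · intro x s hx
      have h1 := fd_nonneg (hit d m r F s) (by linarith : (0 : ℝ) ≤ x)
      have h2 : D * Wf d m (-a) x s ≤ 1 * 1 :=
        mul_le_mul hD1 (Wf_le_one hd _ _ _) (Wf_nonneg _ _ _) zero_le_one
      linarith
    · intro t s ht hts x hx
      have hx0 : 0 < x := lt_of_lt_of_le (by positivity) hx
      have h1 := hflow t s ht hts x hx
      rw [Wf_flow hd hdm (-a) hx0 (by omega : t ≤ s)]
      rw [Finset.sum_sub_distrib, sub_div, ← Finset.mul_sum, mul_div_assoc]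
      rw [abs_le] at h1
      linarith
    · intro x hx s hs
      have hx1 : 1 < x := by linarith
      have hlx : 0 < Real.log x := Real.log_pos hx1
      have h1 : Wf d m (-a) x s = 0 := by
        refine Wf_zero hd hdm ?_
        have h2 : (s : ℝ) * Real.log d ≤ c * Real.log x * Real.log d := mul_le_mul_of_nonneg_right hs.le hld.le
        have h3 : c * Real.log d ≤ 1 / 4 := (mul_le_mul_of_nonneg_left hldm hc.le).trans hcm
        have h4 : c * Real.log d * Real.log x ≤ 1 / 4 * Real.log x := mul_le_mul_of_nonneg_right h3 hlx.le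
        nlinarith
      rw [h1, hsmall x hx s hs]
      linarith
    · intro x hx hx2 s
      have hx1 : 1 < x := by linarith
      have hx0 : 0 < x := by linarith
      rcases le_or_gt S s with hs | hs
      · have h1 : fd (hitI d m r F) x ≤ fd (hit d m r F s) x := by
          refine fd_mono hx0.le fun n hn1 hn2 hn3 => ?_
          refine hit_mono hs (hS n ?_ (by linarith) hn3)
          have : (0 : ℝ) < n := by linarith
          exact_mod_cast this
        have h2 := abs_le.1 (hfdI x hx)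
        have h3 : D * Wf d m (-a) x s ≤ D * 1 := mul_le_mul_of_nonneg_left (Wf_le_one hd _ _ _) hD0
        linarith
      · have h1 : Wf d m (-a) x s = 0 := by
          refine Wf_zero hd hdm ?_
          have h2 : (s : ℝ) * Real.log d ≤ S * Real.log d :=
            mul_le_mul_of_nonneg_right (by exact_mod_cast hs.le) hld.le
          have h3 : 0 < Real.log x := Real.log_pos hx1
          linarith
        have h4 := fd_nonneg (hit d m r F s) hx0.le
        rw [h1]
        linarith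
  · -- upper bound
    have hmain := hcmp z hzz₀ (ε / 2) (by positivity)
      (fun x s => fd (hit d m r F s) x - D * Wf d m a x s) ?_ ?_ ?_ ?_ x hx s
    · linarith
    · intro x s hx
      have h1 := fd_le_two (hit d m r F s) hx
      have h2 : 0 ≤ D * Wf d m a x s := mul_nonneg hD0 (Wf_nonneg _ _ _)
      linarith
    · intro t s ht hts x hx
      have hx0 : 0 < x := lt_of_lt_of_le (by positivity) hx
      have h1 := hflow t s ht hts x hx
      rw [Wf_flow hd hdm a hx0 (by omega : t ≤ s)]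
      rw [Finset.sum_sub_distrib, sub_div, ← Finset.mul_sum, mul_div_assoc]
      rw [abs_le] at h1
      linarith
    · intro x hx s hs
      have h2 : 0 ≤ D * Wf d m a x s := mul_nonneg hD0 (Wf_nonneg _ _ _)
      rw [hsmall x hx s hs]
      linarith
    · intro x hx hx2 s
      have hx0 : 0 < x := by linarith
      have h1 : fd (hit d m r F s) x ≤ fd (hitI d m r F) x :=
        fd_mono hx0.le fun n _ _ hn => hit_sub hn
      have h2 := abs_le.1 (hfdI x hx)
      have h3 : 1 - ε / 4 ≤ Wf d m a x s := by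
        refine (hW x hx0 hx2 s).trans ?_
        unfold Wf
        refine div_le_div_of_nonneg_right (cW_mono fun w _ hw => ?_) (by positivity)
        linarith
      have h4 : D * (1 - ε / 4) ≤ D * Wf d m a x s := mul_le_mul_of_nonneg_left h3 hD0
      have h5 : D * (ε / 4) ≤ 1 * (ε / 4) := mul_le_mul_of_nonneg_right hD1 (by positivity)
      linarith

end Pool.Agent.Helper8.ST
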