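import Pool.Agent.Helper52.Tao.A1

/-!
# The comparison lemma

A function `V x s` of the scale `x` and the number `s` of steps which is, up to an error `C / t ^ 2`, below its average over the places of
the orbit segments of length `t`, is at all scales at most as large as at the scales between `z` and `z ^ 2`.
-/

set_option autoImplicit false

namespace Pool.Agent.Helper8.ST

open Pool.Agent.Helper68.Moeller Pool.Agent.Helper52.Tao Filter Topology

theorem cmp {d m : ℕ} (hd : 2 ≤ d) (hdm : d < m) (hγ : (1 - 1 / (d : ℝ)) * Real.log m < Real.log d) :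
    ∃ c : ℝ, 0 < c ∧ c * Real.log m ≤ 1 / 4 ∧ ∀ C : ℝ, 1 ≤ C → ∃ z₀ : ℝ, 1 < z₀ ∧
      ∀ z : ℝ, z₀ ≤ z → ∀ η : ℝ, 0 ≤ η → ∀ V : ℝ → ℕ → ℝ,
      (∀ x s, 1 ≤ x → V x s ≤ 2) →
      (∀ t s : ℕ, 1 ≤ t → t + t ≤ s → ∀ x : ℝ, C * ((d : ℝ) * m) ^ (8 * t) ≤ x →
        V x s ≤ (∑ v ∈ W d t, V (x * (m : ℝ) ^ sg v / (d : ℝ) ^ t) (s - t)) / (d : ℝ) ^ t + C / (t : ℝ) ^ 2) →
      (∀ x : ℝ, z ≤ x → ∀ s : ℕ, (s : ℝ) < c * Real.log x → V x s ≤ η) →
      (∀ x : ℝ, z ≤ x → x ≤ z ^ 2 → ∀ s : ℕ, V x s ≤ η) →
      ∀ x : ℝ, z ≤ x → ∀ s : ℕ, V x s ≤ η + 1 / Real.log z := by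
  have hd2 : (2 : ℝ) ≤ d := by exact_mod_cast hd
  have hm3 : (3 : ℝ) ≤ m := by exact_mod_cast (by omega : 3 ≤ m)
  have hd0 : (0 : ℝ) < d := by linarith
  have hm0 : (0 : ℝ) < m := by linarith
  have hld : 0 < Real.log d := Real.log_pos (by linarith)
  have hlm : 0 < Real.log m := Real.log_pos (by linarith)
  have hldm : Real.log ((d : ℝ) * m) = Real.log d + Real.log m := Real.log_mul hd0.ne' hm0.ne'
  have hldm0 : 0 < Real.log ((d : ℝ) * m) := by rw [hldm]; linarith
  obtain ⟨c₀, hc₀⟩ : ∃ c₀ : ℝ, c₀ = 1 / (16 * Real.log ((d : ℝ) * m)) := ⟨_, rfl⟩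
  have hc₀0 : 0 < c₀ := by rw [hc₀]; positivity
  have hc₀l : c₀ * (16 * Real.log ((d : ℝ) * m)) = 1 := by rw [hc₀]; field_simp
  have hc₀d : c₀ * Real.log d ≤ 1 / 16 := by
    rw [hldm] at hc₀l
    nlinarith [mul_pos hc₀0 hlm]
  have hc₀m : c₀ * Real.log m ≤ 1 / 16 := by
    rw [hldm] at hc₀l
    nlinarith [mul_pos hc₀0 hld]
  -- the typical words
  obtain ⟨a, ha⟩ : ∃ a : ℝ, a = ((1 - 1 / (d : ℝ)) + Real.log d / Real.log m) / 2 := ⟨_, rfl⟩
  have hq1 : (1 - 1 / (d : ℝ)) < Real.log d / Real.log m := by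
    rw [lt_div_iff₀ hlm]
    exact hγ
  have ha1 : (1 - 1 / (d : ℝ)) * 1 < a := by rw [ha]; linarith
  have ha2 : a < Real.log d / Real.log m := by rw [ha]; linarith
  have ham : a * Real.log m < Real.log d := by rwa [lt_div_iff₀ hlm] at ha2
  obtain ⟨c₂, hc₂, hch⟩ := chernoff hd (θ := 1) (a := a) one_pos ha1
  obtain ⟨c₁, hc₁⟩ : ∃ c₁ : ℝ, c₁ = Real.log d - a * Real.log m := ⟨_, rfl⟩
  have hc₁0 : 0 < c₁ := by rw [hc₁]; linarith
  have hq0 : 0 ≤ 1 - 1 / (d : ℝ) := by
    have : 1 / (d : ℝ) ≤ 1 := by rw [div_le_one hd0]; linarith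
    linarith
  have ha0 : 0 ≤ a := by linarith
  have hc₁d : c₁ ≤ Real.log d := by
    have := mul_nonneg ha0 hlm.le
    rw [hc₁]
    linarith
  refine ⟨2 * c₀, by positivity, by linarith, fun C hC => ?_⟩
  have hC0 : 0 < C := by linarith
  -- the threshold for `t`
  have hev : ∀ᶠ t : ℕ in atTop, 2 * Real.exp (-(c₂ * t)) + C / (t : ℝ) ^ 2 ≤ c₁ * c₀ ^ 2 / (4 * t) := by
    have h1 : Tendsto (fun t : ℕ => 2 * ((t : ℝ) * Real.exp (-(c₂ * t))) + C / (t : ℝ)) atTop (𝓝 (2 * 0 + 0)) := by
      refine Tendsto.add (Tendsto.const_mul _ ?_) ?_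
      · have h2 : Tendsto (fun x : ℝ => x ^ 1 * Real.exp (-c₂ * x)) atTop (𝓝 0) := by
          have := tendsto_rpow_mul_exp_neg_mul_atTop_nhds_zero 1 c₂ hc₂
          simpa using this
        have h3 := h2.comp (tendsto_natCast_atTop_atTop (R := ℝ))
        refine h3.congr fun t => ?_
        simp [Function.comp]
      · exact tendsto_const_nhds.div_atTop (tendsto_natCast_atTop_atTop (R := ℝ))
    rw [mul_zero, add_zero] at h1
    have h4 : (0 : ℝ) < c₁ * c₀ ^ 2 / 4 := by positivity
    filter_upwards [h1.eventually (gt_mem_nhds h4), eventually_ge_atTop 1] with t ht ht1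
    have ht0 : (0 : ℝ) < t := by exact_mod_cast ht1
    have e1 : 2 * Real.exp (-(c₂ * t)) + C / (t : ℝ) ^ 2 =
        (2 * ((t : ℝ) * Real.exp (-(c₂ * t))) + C / (t : ℝ)) / t := by
      field_simp
    have e2 : c₁ * c₀ ^ 2 / (4 * t) = (c₁ * c₀ ^ 2 / 4) / t := by field_simp
    rw [e1, e2]
    exact div_le_div_of_nonneg_right ht.le ht0.le
  obtain ⟨T₀, hT₀⟩ := eventually_atTop.1 hev
  -- the threshold for `z`
  obtain ⟨Lz, hLz⟩ : ∃ Lz : ℝ, Lz = max (max (2 / c₀) (2 * (T₀ + 1) / c₀)) (max (Real.log (C ^ 2)) (2 / (c₁ * c₀))) + 1 := ⟨_, rfl⟩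
  have hL1 : 2 / c₀ ≤ Lz := by
    rw [hLz]
    exact ((le_max_left _ _).trans (le_max_left _ _)).trans (by linarith)
  have hL2 : 2 * (T₀ + 1) / c₀ ≤ Lz := by
    rw [hLz]
    exact ((le_max_right _ _).trans (le_max_left _ _)).trans (by linarith)
  have hL3 : Real.log (C ^ 2) ≤ Lz := by
    rw [hLz]
    exact ((le_max_left _ _).trans (le_max_right _ _)).trans (by linarith)
  have hL4 : 2 / (c₁ * c₀) ≤ Lz := by
    rw [hLz]
    exact ((le_max_right _ _).trans (le_max_right _ _)).trans (by linarith)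
  have hL0 : 0 < Lz := lt_of_lt_of_le (by positivity) hL1
  refine ⟨Real.exp Lz, Real.one_lt_exp_iff.2 hL0, fun z hz η hη V hV2 hfl hsm hba => ?_⟩
  have hz1 : 1 < z := (Real.one_lt_exp_iff.2 hL0).trans_le hz
  have hz0 : 0 < z := by linarith
  have hlz : Lz ≤ Real.log z := by
    rw [← Real.log_exp Lz]
    exact Real.log_le_log (Real.exp_pos _) hz
  have hlz0 : 0 < Real.log z := by linarith
  have key : ∀ k : ℕ, ∀ x : ℝ, z ≤ x → x ≤ 2 ^ k → ∀ s : ℕ, V x s ≤ η + 1 / Real.log z - 1 / Real.log x := by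
    intro k
    induction k with
    | zero =>
      intro x hx hx2 s
      rw [pow_zero] at hx2
      linarith
    | succ k ih =>
      intro x hx hxk s
      have hx0 : 0 < x := by linarith
      have hlx : Real.log z ≤ Real.log x := Real.log_le_log hz0 hx
      have hlx0 : 0 < Real.log x := by linarith
      have hmono : 1 / Real.log x ≤ 1 / Real.log z := one_div_le_one_div_of_le hlz0 hlx
      rcases le_or_gt x (z ^ 2) with h1 | h1
      · have := hba x hx h1 s
        linarith
      rcases lt_or_ge (s : ℝ) (2 * c₀ * Real.log x) with h2 | h2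
      · have := hsm x hx s h2
        linarith
      obtain ⟨L, hL⟩ : ∃ L : ℝ, L = Real.log x := ⟨_, rfl⟩
      have hLz2 : 2 * Real.log z ≤ L := by
        rw [hL]
        have := Real.log_le_log (by positivity) h1.le
        rwa [Real.log_pow, Nat.cast_ofNat] at this
      have hLpos : 0 < L := by linarith
      obtain ⟨t, ht⟩ : ∃ t : ℕ, t = ⌊c₀ * L⌋₊ := ⟨_, rfl⟩
      have ht1 : (t : ℝ) ≤ c₀ * L := by rw [ht]; exact Nat.floor_le (by positivity)
      have ht2 : c₀ * L < t + 1 := by rw [ht]; exact Nat.lt_floor_add_one _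
      have hcL : 2 ≤ c₀ * L := by
        have : 2 / c₀ ≤ L := by linarith
        rw [div_le_iff₀ hc₀0] at this
        linarith
      have ht3 : c₀ * L / 2 ≤ t := by linarith
      have htT : (T₀ : ℝ) ≤ t := by
        have : 2 * (T₀ + 1) / c₀ ≤ L := by linarith
        rw [div_le_iff₀ hc₀0] at this
        linarith only [this, ht3]
      have htT' : T₀ ≤ t := by exact_mod_cast htT
      have ht1' : (1 : ℝ) ≤ t := by linarith
      have ht1n : 1 ≤ t := by exact_mod_cast ht1'
      have ht0 : (0 : ℝ) < t := by linarith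
      have htc : 1 ≤ c₁ * t := by
        have h3 : 2 / (c₁ * c₀) ≤ L := by linarith
        rw [div_le_iff₀ (by positivity)] at h3
        have h4 := mul_le_mul_of_nonneg_left ht3 hc₁0.le
        linarith only [h3, h4]
      have htts : t + t ≤ s := by
        have : ((t + t : ℕ) : ℝ) ≤ s := by
          push_cast
          rw [← hL] at h2
          linarith
        exact_mod_cast this
      have hxe : x = Real.exp L := by rw [hL, Real.exp_log hx0]
      -- the condition of the flow
      have hpow : ((d : ℝ) * m) ^ (8 * t) ≤ Real.exp (L / 2) := by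
        rw [← Real.rpow_natCast, Real.rpow_def_of_pos (by positivity)]
        apply Real.exp_le_exp.2
        push_cast
        have h4 : Real.log ((d : ℝ) * m) * (8 * (t : ℝ)) ≤ Real.log ((d : ℝ) * m) * (8 * (c₀ * L)) :=
          mul_le_mul_of_nonneg_left (by linarith) hldm0.le
        have h5 : Real.log ((d : ℝ) * m) * (8 * (c₀ * L)) = c₀ * (16 * Real.log ((d : ℝ) * m)) * (L / 2) := by ring
        rw [h5, hc₀l, one_mul] at h4
        exact h4
      have hCe : C ≤ Real.exp (L / 2) := by
        have h4 : Real.log (C ^ 2) ≤ L := by linarith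
        rw [Real.log_pow, Nat.cast_ofNat] at h4
        calc C = Real.exp (Real.log C) := (Real.exp_log hC0).symm
          _ ≤ Real.exp (L / 2) := Real.exp_le_exp.2 (by linarith)
      have hee : Real.exp (L / 2) * Real.exp (L / 2) = x := by
        rw [← Real.exp_add, hxe]
        congr 1
        ring
      have hcond : C * ((d : ℝ) * m) ^ (8 * t) ≤ x := by
        rw [← hee]
        exact mul_le_mul hCe hpow (by positivity) (Real.exp_pos _).le
      have h6 := hfl t s ht1n htts x hcond
      -- the values at the places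
      obtain ⟨g, hg⟩ : ∃ g : ℝ, g = η + 1 / Real.log z - 1 / (L - c₁ * t) := ⟨_, rfl⟩
      have hc₁t : c₁ * t ≤ L / 16 := by
        calc c₁ * t ≤ Real.log d * (c₀ * L) := mul_le_mul hc₁d ht1 ht0.le hld.le
          _ = (c₀ * Real.log d) * L := by ring
          _ ≤ 1 / 16 * L := mul_le_mul_of_nonneg_right hc₀d hLpos.le
          _ = L / 16 := by ring
      have hLt : Real.log z ≤ L - c₁ * t := by linarith
      have hg0 : 0 ≤ g := by
        have := one_div_le_one_div_of_le hlz0 hLt
        rw [hg]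
        linarith
      have hdt : (1 : ℝ) ≤ (d : ℝ) ^ t := one_le_pow₀ (by linarith)
      have hdt0 : (0 : ℝ) < (d : ℝ) ^ t := by linarith
      have hplace : ∀ v ∈ W d t, V (x * (m : ℝ) ^ sg v / (d : ℝ) ^ t) (s - t) ≤
          g + 2 * (open Classical in if a * t ≤ (sg v : ℝ) then 1 else 0) := by
        intro v hv
        obtain ⟨y, hy⟩ : ∃ y : ℝ, y = x * (m : ℝ) ^ sg v / (d : ℝ) ^ t := ⟨_, rfl⟩
        rw [← hy]
        have hlogy : Real.log y = L + sg v * Real.log m - t * Real.log d := by
          rw [hy, Real.log_div (by positivity) hdt0.ne', Real.log_mul hx0.ne' (by positivity), Real.log_pow, Real.log_pow, hL]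
        have hy0 : 0 < y := by rw [hy]; positivity
        have htd : (t : ℝ) * Real.log d ≤ L / 16 := by
          calc (t : ℝ) * Real.log d ≤ (c₀ * L) * Real.log d := mul_le_mul_of_nonneg_right ht1 hld.le
            _ = (c₀ * Real.log d) * L := by ring
            _ ≤ 1 / 16 * L := mul_le_mul_of_nonneg_right hc₀d hLpos.le
            _ = L / 16 := by ring
        have hsgm : 0 ≤ (sg v : ℝ) * Real.log m := by positivity
        have hyz : z ≤ y := by
          rw [← Real.log_le_log_iff hz0 hy0, hlogy]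
          linarith
        by_cases hty : a * t ≤ (sg v : ℝ)
        · rw [if_pos hty]
          have := hV2 y (s - t) (by linarith)
          linarith
        · rw [if_neg hty]
          push Not at hty
          have hly : Real.log y ≤ L - c₁ * t := by
            rw [hlogy, hc₁]
            have : (sg v : ℝ) * Real.log m ≤ a * t * Real.log m := mul_le_mul_of_nonneg_right hty.le hlm.le
            linarith
          have hyk : y ≤ 2 ^ k := by
            have h7 : Real.log y ≤ Real.log x - 1 := by rw [← hL]; linarith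
            have h8 : y ≤ x / 2 := by
              rw [← Real.log_le_log_iff hy0 (by positivity), Real.log_div hx0.ne' (by norm_num)]
              have : Real.log 2 ≤ 1 := by
                have := Real.log_two_lt_d9
                linarith
              linarith
            rw [pow_succ] at hxk
            linarith
          have h9 := ih y hyz hyk (s - t)
          have hly0 : 0 < Real.log y := by
            have := Real.log_le_log hz0 hyz
            linarith
          have h10 : 1 / (L - c₁ * t) ≤ 1 / Real.log y := one_div_le_one_div_of_le hly0 hly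
          rw [hg]
          linarith
      have hsum : ∑ v ∈ W d t, V (x * (m : ℝ) ^ sg v / (d : ℝ) ^ t) (s - t) ≤
          (d : ℝ) ^ t * g + 2 * ((d : ℝ) ^ t * Real.exp (-(c₂ * t))) := by
        classical
        refine (Finset.sum_le_sum hplace).trans ?_
        rw [Finset.sum_add_distrib, Finset.sum_const, card_W, nsmul_eq_mul, ← Finset.mul_sum]
        have h7 := hch t t (by linarith)
        rw [cW_eq_sum] at h7
        push_cast
        refine add_le_add le_rfl (mul_le_mul_of_nonneg_left ?_ (by norm_num))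
        convert h7 using 3
      have h8 : (∑ v ∈ W d t, V (x * (m : ℝ) ^ sg v / (d : ℝ) ^ t) (s - t)) / (d : ℝ) ^ t ≤
          g + 2 * Real.exp (-(c₂ * t)) := by
        rw [div_le_iff₀ hdt0]
        linarith
      have h9 := hT₀ t htT'
      -- the gain
      have h10 : c₁ * c₀ ^ 2 / (4 * t) ≤ 1 / (L - c₁ * t) - 1 / L := by
        have hLt0 : 0 < L - c₁ * t := by linarith
        rw [div_sub_div _ _ hLt0.ne' hLpos.ne', div_le_div_iff₀ (by positivity) (by positivity)]
        have h11 : c₀ * L ≤ 2 * t := by linarith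
        have h12 : (c₀ * L) ^ 2 ≤ (2 * t) ^ 2 := pow_le_pow_left₀ (by positivity) h11 2
        have h13 : (L - c₁ * t) * L ≤ L * L := by
          have : 0 ≤ c₁ * t := by positivity
          have h0 := mul_nonneg this hLpos.le
          linarith only [h0]
        have h14 : c₁ * c₀ ^ 2 * ((L - c₁ * t) * L) ≤ c₁ * c₀ ^ 2 * (L * L) :=
          mul_le_mul_of_nonneg_left h13 (by positivity)
        have h15 : c₁ * (c₀ * L) ^ 2 ≤ c₁ * (2 * t) ^ 2 := mul_le_mul_of_nonneg_left h12 hc₁0.le
        linarith only [h14, h15]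
      rw [hL] at hg h10
      rw [hg] at h8
      linarith
  intro x hx s
  obtain ⟨k, hk⟩ := pow_unbounded_of_one_lt x (one_lt_two : (1 : ℝ) < 2)
  have h1 := key k x hx hk.le s
  have h2 : 0 < Real.log x := by
    have := Real.log_le_log hz0 hx
    linarith
  have h3 : 0 < 1 / Real.log x := by positivity
  linarith

end Pool.Agent.Helper8.ST
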