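import Pool.Agent.Helper8.ST.Lim
import Pool.Agent.Helper28.POSB.Basins

/-!
# The central limit theorem for the hitting times (draft of the result file `StoppingTimeCLT`, new form)

`T n = n / d` if `d ∣ n`, `T n = (m n - r_j) / d` if `n ≡ j (mod d)`, `1 ≤ j ≤ d - 1`, as in the problem file, with coprime
`2 ≤ d < m ≤ d ^ (d / (d - 1))` and admissible residues. Let `F` be any set of integers which is bounded above, and `τ n` the number of
the steps from `n` to `F`. The integers `n` with `τ n < ∞` have a density `D`, and `τ n` is asymptotically normal on them, with the mean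
`log n / γ` and the variance `σ ^ 2 log n`: the set of the `n` with `τ n ≤ log n / γ + u σ √(log n)` has the density `D Φ(u)`, for all
real `u`. `D > 0` if `F` contains a positive integer which is not dead (for `3x + 1`: not a multiple of `3`).

Structure of the proof. `Helper8/ST`: `Cmp` a comparison lemma for the random walk with the steps `j log m - log d`, `Hit` the flow
(fine-scale mixing, `Helper52.Tao`) for the sets of the integers which meet `F` within `s` steps, `Bnd` two-sided bounds for their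
densities in `[x, 2x)` in terms of the law of the walk with a bounded shift, uniformly in `s`, `Lim` the passage to the limit
(`Helper33.ST.Clt`: Lévy's theorem of Mathlib for the binomial law); positivity: `Helper8.POS`.
-/

set_option autoImplicit false

namespace Pool.Agent.Helper8.ST.Result

open Pool.Agent.Helper68.Moeller Pool.Agent.Helper91 Pool.Agent.Helper8 Pool.Agent.Helper28 ProbabilityTheory Filter
  Topology

/-- The number of the positive elements `≤ x`. -/
noncomputable def count (A : Set ℤ) (x : ℝ) : ℝ := ({n : ℤ | n ∈ A ∧ 0 < n ∧ (n : ℝ) ≤ x}.ncard : ℝ)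

/-- The natural density (in the positive integers). -/
def HasDensity (A : Set ℤ) (δ : ℝ) : Prop := Tendsto (fun x : ℝ => count A x / x) atTop (𝓝 δ)

/-- `γ = log d - (1 - 1 / d) log m`. -/
noncomputable def drift (d m : ℕ) : ℝ := Real.log d - (1 - 1 / (d : ℝ)) * Real.log m

/-- `σ = (log m) (√(d - 1) / d) γ ^ (-3/2)`. -/
noncomputable def sdev (d m : ℕ) : ℝ := Real.log m * (Real.sqrt (d - 1) / d) / drift d m ^ (3 / 2 : ℝ)

/-- The standard normal distribution function. -/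
noncomputable def Φ (u : ℝ) : ℝ := (gaussianReal 0 1).real (Set.Iic u)

/-- `a` is dead: the number of the points not divisible by `d` on the path from `n` to `a` is bounded,
for the integers `n` whose orbit contains `a`. -/
def Dead (d m : ℕ) (r : ℤ → ℤ) (a : ℤ) : Prop :=
  ∃ k : ℕ, ∀ (n : ℤ) (t : ℕ), (T d m r)^[t] n = a →
    ((Finset.range t).filter (fun i => ¬ (d : ℤ) ∣ (T d m r)^[i] n)).card < k

/-- The map `(3x + 1) / 2`, `x / 2`. -/
def T3 : ℤ → ℤ := T 2 3 (fun _ => -1)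

theorem sdev_eq {d m : ℕ} (hd : 2 ≤ d) (hγ : 0 < drift d m) : sdev d m = ST.sd d m := by
  have hd0 : (0 : ℝ) < d := by exact_mod_cast (by omega : 0 < d)
  have hd1 : (1 : ℝ) ≤ d := by exact_mod_cast (by omega : 1 ≤ d)
  have e1 : drift d m ^ (3 / 2 : ℝ) = drift d m * Real.sqrt (drift d m) := by
    rw [Real.sqrt_eq_rpow, show (3 / 2 : ℝ) = 1 + 1 / 2 by norm_num, Real.rpow_add hγ, Real.rpow_one]
  have e2 : Real.sqrt ((1 - 1 / (d : ℝ)) * (1 / (d : ℝ))) = Real.sqrt ((d : ℝ) - 1) / d := by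
    have e3 : (1 - 1 / (d : ℝ)) * (1 / (d : ℝ)) = ((d : ℝ) - 1) / (d : ℝ) ^ 2 := by
      field_simp
    rw [e3, Real.sqrt_div (by linarith), Real.sqrt_sq hd0.le]
  unfold sdev ST.sd
  rw [e1, e2]
  rfl

theorem general (d m : ℕ) (hd : 2 ≤ d) (hdm : d < m) (hco : Nat.Coprime m d)
    (hm : (m : ℝ) ≤ (d : ℝ) ^ ((d : ℝ) / ((d : ℝ) - 1))) (r : ℤ → ℤ) (hr : Admissible d m r)
    (F : Set ℤ) (b : ℝ) (hF : ∀ n ∈ F, (n : ℝ) ≤ b) :
    ∃ D : ℝ, 0 ≤ D ∧ (∀ a ∈ F, 0 < a → ¬ Dead d m r a → 0 < D) ∧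
      HasDensity {n | ∃ t : ℕ, (T d m r)^[t] n ∈ F} D ∧
      ∀ u : ℝ, HasDensity {n | ∃ t : ℕ, (T d m r)^[t] n ∈ F ∧
        (t : ℝ) ≤ Real.log n / drift d m + u * sdev d m * Real.sqrt (Real.log n)} (D * Φ u) := by
  have h : POSB.Std d m r := ⟨hd, hdm, hco, hm, hr⟩
  have hγ : 0 < drift d m := h.gam
  have hb : 0 ≤ max b 0 := le_max_right _ _
  have hF' : ∀ n ∈ F, (n : ℝ) ≤ max b 0 := fun n hn => (hF n hn).trans (le_max_left _ _)
  have htend := PL.stab_tendsto h.hd h.hdm h.hco h.hr h.gam h.mix (ST.tinv_hitI (d := d) (m := m) (r := r) hF')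
  have hdens : HasDensity (ST.hitI d m r F) (PL.dens (ST.hitI d m r F)) := PL.hasDensity_of_fd htend
  refine ⟨PL.dens (ST.hitI d m r F), ?_, ?_, hdens, fun u => ?_⟩
  · refine ge_of_tendsto htend ?_
    filter_upwards [eventually_ge_atTop 0] with x hx
    exact ND.fd_nonneg _ hx
  · intro a ha ha0 hdead
    obtain ⟨c, hc, h1⟩ := POS.density_one hd hdm hco hm hr
    have ha0' : (0 : ℝ) < a := by exact_mod_cast ha0
    have h2 : c / a ≤ PL.dens (ST.hitI d m r F) := by
      refine ge_of_tendsto hdens ?_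
      filter_upwards [eventually_ge_atTop (a : ℝ)] with x hx
      have hx0 : 0 < x := by linarith
      rw [le_div_iff₀ hx0]
      have h3 := h1 a x (by omega) hdead hx
      have h4 : c / a * x = c * x / a := by ring
      rw [h4]
      refine h3.trans ?_
      unfold count
      have hfin : {n : ℤ | n ∈ ST.hitI d m r F ∧ 0 < n ∧ (n : ℝ) ≤ x}.Finite := by
        refine (Set.finite_Icc (1 : ℤ) ⌊x⌋).subset ?_
        rintro n ⟨-, h1, h2⟩
        exact ⟨by omega, Int.le_floor.2 h2⟩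
      have hsub : {n : ℤ | (∃ t : ℕ, (T d m r)^[t] n = a) ∧ 0 < n ∧ (n : ℝ) ≤ x} ⊆
          {n : ℤ | n ∈ ST.hitI d m r F ∧ 0 < n ∧ (n : ℝ) ≤ x} := by
        rintro n ⟨⟨t, ht⟩, h1, h2⟩
        exact ⟨⟨t, by rw [ht]; exact ha⟩, h1, h2⟩
      exact_mod_cast Set.ncard_le_ncard hsub hfin
    exact lt_of_lt_of_le (by positivity) h2
  · have h1 := ST.clt h hb hF' u
    have h2 := PL.hasDensity_of_fd h1
    have e : Φ u = cdf (gaussianReal 0 1) u := by rw [cdf_eq_real]; rfl
    rw [e]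
    unfold ST.early at h2
    rw [← sdev_eq hd hγ] at h2
    exact h2

/-- **The central limit theorem for the hitting times.** -/
theorem result :
    (∀ (d m : ℕ), 2 ≤ d → d < m → Nat.Coprime m d → (m : ℝ) ≤ (d : ℝ) ^ ((d : ℝ) / ((d : ℝ) - 1)) →
      ∀ r : ℤ → ℤ, Admissible d m r → ∀ (F : Set ℤ) (b : ℝ), (∀ n ∈ F, (n : ℝ) ≤ b) →
      ∃ D : ℝ, 0 ≤ D ∧ (∀ a ∈ F, 0 < a → ¬ Dead d m r a → 0 < D) ∧
        HasDensity {n | ∃ t : ℕ, (T d m r)^[t] n ∈ F} D ∧
        ∀ u : ℝ, HasDensity {n | ∃ t : ℕ, (T d m r)^[t] n ∈ F ∧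
          (t : ℝ) ≤ Real.log n / drift d m + u * sdev d m * Real.sqrt (Real.log n)} (D * Φ u)) ∧
    -- the special case of the integers which reach `1` under `3x + 1`
    (∃ D : ℝ, 0 < D ∧ HasDensity {n | ∃ t : ℕ, T3^[t] n = 1} D ∧
      ∀ u : ℝ, HasDensity {n | ∃ t : ℕ, T3^[t] n = 1 ∧
        (t : ℝ) ≤ 2 / Real.log (4 / 3) * Real.log n +
          u * (Real.sqrt 2 * Real.log 3 / Real.log (4 / 3) ^ (3 / 2 : ℝ)) * Real.sqrt (Real.log n)} (D * Φ u)) := by
  refine ⟨general, ?_⟩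
  have hs : POSB.Std 2 3 (fun _ => -1) := POSB.std_three
  obtain ⟨D, -, h1, h2, h3⟩ := general 2 3 hs.hd hs.hdm hs.hco hs.hw _ hs.hr {1} 1 (by simp)
  have hdr : drift 2 3 = Real.log (4 / 3) / 2 := by
    unfold drift
    rw [Real.log_div (by norm_num) (by norm_num), show (4 : ℝ) = 2 ^ 2 by norm_num, Real.log_pow]
    push_cast
    ring
  have hl : 0 < Real.log (4 / 3) := Real.log_pos (by norm_num)
  have hsd : sdev 2 3 = Real.sqrt 2 * Real.log 3 / Real.log (4 / 3) ^ (3 / 2 : ℝ) := by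
    unfold sdev
    rw [hdr, Real.div_rpow hl.le (by norm_num)]
    have e1 : Real.sqrt (((2 : ℕ) : ℝ) - 1) = 1 := by norm_num
    have e2 : (2 : ℝ) ^ (3 / 2 : ℝ) = 2 * Real.sqrt 2 := by
      rw [Real.sqrt_eq_rpow, show (3 / 2 : ℝ) = 1 + 1 / 2 by norm_num, Real.rpow_add (by norm_num), Real.rpow_one]
    have e3 : 0 < Real.log (4 / 3) ^ (3 / 2 : ℝ) := Real.rpow_pos_of_pos hl _
    rw [e1, e2]
    push_cast
    field_simp
  refine ⟨D, h1 1 rfl one_pos ?_, ?_, fun u => ?_⟩
  · intro hdead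
    have := (PL.dead_three 1).1 hdead
    omega
  · exact h2
  · have h4 := h3 u
    rw [hsd, hdr] at h4
    have e : {n : ℤ | ∃ t : ℕ, T3^[t] n = 1 ∧
        (t : ℝ) ≤ 2 / Real.log (4 / 3) * Real.log n +
          u * (Real.sqrt 2 * Real.log 3 / Real.log (4 / 3) ^ (3 / 2 : ℝ)) * Real.sqrt (Real.log n)} =
        {n : ℤ | ∃ t : ℕ, (T 2 3 (fun _ => -1))^[t] n ∈ ({1} : Set ℤ) ∧
        (t : ℝ) ≤ Real.log n / (Real.log (4 / 3) / 2) +
          u * (Real.sqrt 2 * Real.log 3 / Real.log (4 / 3) ^ (3 / 2 : ℝ)) * Real.sqrt (Real.log n)} := by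
      ext n
      have e2 : 2 / Real.log (4 / 3) * Real.log n = Real.log n / (Real.log (4 / 3) / 2) := by
        field_simp
      simp only [Set.mem_ofPred_eq, Set.mem_singleton_iff, e2]
      rfl
    rw [e]
    exact h4

end Pool.Agent.Helper8.ST.Result
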